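import Pool.Agent.HSIO.Defs
import Pool.Agent.Helper94.HS3.Haar3
import Pool.Agent.Helper3.HS.Pull

/-!
# The energy condition gives thin slices (row E of the IO project)
-/

set_option autoImplicit false
set_option linter.unusedSectionVars false
set_option linter.unusedVariables false

open Set MeasureTheory Metric Filter Topology
open scoped NNReal ENNReal

namespace Pool.Agent.HSIO

open Pool.Agent.Helper3.HS Pool.Agent.HS3 Pool.Agent.Helper83.IO

/-- Borel-Cantelli for the slices: if the set `S` has covers by sets `E z` which lie over the sets `I z` of the line,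
with small total weight, then almost all slices are thin. -/
lemma thin_of_scales {V Y ι : Type*} [PseudoEMetricSpace Y] {p : ℕ} [hp : Fact p.Prime] [MeasurableSpace ℤ_[p]]
    (ν : Measure ℤ_[p]) [Countable ι] [Infinite ι] (f : V → ℝ) (Γ : ℤ_[p] → V → Y) (l M : ℕ) (hM : 0 < M) (S : Set V) (A : ℝ≥0∞) (hA : A ≠ ∞)
    (h : ∀ n : ℕ, ∃ (E : ι → Set V) (R : ι → ℤ_[p] → ℝ≥0∞) (I : ι → Set ℝ), S ⊆ ⋃ z, E z ∧ (∀ z, Measurable (R z)) ∧
      (∀ z, MeasurableSet (I z)) ∧ (∀ z a, ediam (Γ ((p : ℤ_[p]) ^ l * a) '' (E z ∩ S)) ≤ R z a) ∧ (∀ z, ∀ v ∈ E z, f v ∈ I z) ∧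
      ∑' z, (∫⁻ a, R z a ^ M ∂ν) * volume (I z) ≤ A * 2⁻¹ ^ n) :
    ∀ᵐ s : ℝ, ThinFam ν Γ l M {u | u ∈ S ∧ f u = s} := by
  classical
  choose E R I hE hR hI hd hf hw using h
  set T : ℕ → ℝ → ℝ≥0∞ := fun n s => ∑' z, (I n z).indicator (fun _ => ∫⁻ a, R n z a ^ M ∂ν) s with hT
  have hTm : ∀ n, Measurable (T n) := fun n => Measurable.tsum fun z => measurable_const.indicator (hI n z)
  have hTi : ∀ n, ∫⁻ s, T n s ≤ A * 2⁻¹ ^ n := by
    intro n
    rw [hT, lintegral_tsum fun z => (measurable_const.indicator (hI n z)).aemeasurable]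
    refine le_trans (le_of_eq (tsum_congr fun z => ?_)) (hw n)
    rw [lintegral_indicator (hI n z), setLIntegral_const]
  have hsum : ∫⁻ s, ∑' n, T n s ≠ ∞ := by
    rw [lintegral_tsum fun n => (hTm n).aemeasurable]
    refine ne_top_of_le_ne_top ?_ (ENNReal.tsum_le_tsum hTi)
    rw [ENNReal.tsum_mul_left, ENNReal.tsum_geometric]
    refine ENNReal.mul_ne_top hA (ENNReal.inv_ne_top.2 ?_)
    exact (tsub_pos_iff_lt.2 (ENNReal.inv_lt_one.2 (by norm_num))).ne'
  have hae : ∀ᵐ s : ℝ, ∑' n, T n s < ∞ := ae_lt_top (Measurable.tsum hTm) hsum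
  filter_upwards [hae] with s hs ε hε
  have h1 : Tendsto (fun n => T n s) atTop (𝓝 0) := ENNReal.tendsto_atTop_zero_of_tsum_ne_top hs.ne
  obtain ⟨n, hn⟩ := (h1.eventually_le_const hε).exists
  obtain ⟨g⟩ := nonempty_equiv_of_countable (α := ℕ) (β := ι)
  refine ⟨fun j => if s ∈ I n (g j) then E n (g j) else ∅, fun j a => if s ∈ I n (g j) then R n (g j) a else 0, ?_, ?_, ?_, ?_⟩
  · rintro u ⟨huS, hus⟩
    obtain ⟨z, hz⟩ := mem_iUnion.1 (hE n huS)
    refine mem_iUnion.2 ⟨g.symm z, ?_⟩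
    have h3 : s ∈ I n z := by
      rw [← hus]
      exact hf n z u hz
    rw [Equiv.apply_symm_apply, if_pos h3]
    exact hz
  · intro j
    by_cases h3 : s ∈ I n (g j)
    · simp only [if_pos h3]
      exact hR n (g j)
    · simp only [if_neg h3]
      exact measurable_const
  · intro j a
    by_cases h3 : s ∈ I n (g j)
    · simp only [if_pos h3]
      exact (ediam_mono (image_mono (inter_subset_inter_right _ fun u hu => hu.1))).trans (hd n (g j) a)
    · simp only [if_neg h3, empty_inter, image_empty, ediam_empty]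
      exact le_rfl
  · refine le_trans (le_of_eq ?_) hn
    rw [hT]
    beta_reduce
    rw [← g.tsum_eq]
    refine tsum_congr fun j => ?_
    by_cases h3 : s ∈ I n (g j)
    · simp only [if_pos h3]
      rw [indicator_of_mem h3]
    · simp only [if_neg h3]
      rw [indicator_of_notMem h3, zero_pow hM.ne', lintegral_zero]

section cubes
variable {d : ℕ}

/-- half-open cubes -/
def Cube (h : ℝ) (z : Fin (d + 1) → ℤ) : Set (Fin (d + 1) → ℝ) := pi univ fun j => Ico (h * z j) (h * (z j + 1))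

lemma mem_Cube {h : ℝ} (hh : 0 < h) {z : Fin (d + 1) → ℤ} {v : Fin (d + 1) → ℝ} :
    v ∈ Cube h z ↔ ∀ j, ⌊v j / h⌋ = z j := by
  unfold Cube
  rw [mem_univ_pi]
  refine forall_congr' fun j => ?_
  rw [Int.floor_eq_iff, mem_Ico, le_div_iff₀ hh, div_lt_iff₀ hh, mul_comm h, mul_comm h]

lemma measurableSet_Cube (h : ℝ) (z : Fin (d + 1) → ℤ) : MeasurableSet (Cube h z) :=
  MeasurableSet.univ_pi fun j => measurableSet_Ico

lemma volume_Cube (h : ℝ) (z : Fin (d + 1) → ℤ) : volume (Cube h z) = ENNReal.ofReal h ^ (d + 1) := by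
  unfold Cube
  rw [Real.volume_pi_Ico]
  have h1 : ∀ j : Fin (d + 1), h * ((z j : ℝ) + 1) - h * z j = h := fun j => by ring
  simp only [h1]
  rw [Finset.prod_const, Finset.card_univ, Fintype.card_fin]

lemma dist_Cube {h : ℝ} (hh : 0 < h) {z : Fin (d + 1) → ℤ} {v w : Fin (d + 1) → ℝ} (hv : v ∈ Cube h z)
    (hw : w ∈ Cube h z) : dist v w ≤ h := by
  rw [dist_pi_le_iff hh.le]
  intro j
  have h1 := (mem_univ_pi.1 hv) j
  have h2 := (mem_univ_pi.1 hw) j
  rw [mem_Ico] at h1 h2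
  rw [Real.dist_eq, abs_le]
  constructor <;> nlinarith [h1.1, h1.2, h2.1, h2.2]

end cubes

variable {d : ℕ} {X : Type*} [MetricSpace X] [MeasurableSpace X] [BorelSpace X] {G : Type*}
  [Group G] [TopologicalSpace G] [MulAction G X] [ContinuousSMul G X] {p : ℕ} [hp : Fact p.Prime]
  {θ : Multiplicative ℤ_[p] →* G}

/-- the diameter of the moved set is a measurable function of the group element -/
lemma measurable_moved [MeasurableSpace ℤ_[p]] [BorelSpace ℤ_[p]] (hθ : Continuous θ) (S : Set X) (c : ℤ_[p]) (k : ℕ) :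
    Measurable fun a : ℤ_[p] => ediam ((fun x : X => θ (Multiplicative.ofAdd (c + (p : ℤ_[p]) ^ k * a)) • x) '' S) := by
  apply LowerSemicontinuous.measurable
  intro a y hy
  have hex : ∃ z₁ ∈ S, ∃ z₂ ∈ S, y < edist (θ (Multiplicative.ofAdd (c + (p : ℤ_[p]) ^ k * a)) • z₁)
      (θ (Multiplicative.ofAdd (c + (p : ℤ_[p]) ^ k * a)) • z₂) := by
    by_contra hcon
    push Not at hcon
    apply absurd hy
    rw [not_lt]
    apply Metric.ediam_le
    rintro _ ⟨z₁, h₁, rfl⟩ _ ⟨z₂, h₂, rfl⟩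
    exact hcon z₁ h₁ z₂ h₂
  obtain ⟨z₁, h₁, z₂, h₂, hlt⟩ := hex
  have hf : Continuous (fun a : ℤ_[p] => θ (Multiplicative.ofAdd (c + (p : ℤ_[p]) ^ k * a))) :=
    hθ.comp (continuous_ofAdd.comp (continuous_const.add (continuous_const.mul continuous_id)))
  have hc : Continuous (fun a : ℤ_[p] => edist (θ (Multiplicative.ofAdd (c + (p : ℤ_[p]) ^ k * a)) • z₁)
      (θ (Multiplicative.ofAdd (c + (p : ℤ_[p]) ^ k * a)) • z₂)) :=
    (hf.smul continuous_const).edist (hf.smul continuous_const)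
  filter_upwards [hc.continuousAt.eventually (lt_mem_nhds hlt)] with a' ha'
  exact ha'.trans_le (Metric.edist_le_ediam_of_mem ⟨z₁, h₁, rfl⟩ ⟨z₂, h₂, rfl⟩)

/-- the energy condition gives thin slices -/
theorem thin_energy [MeasurableSpace ℤ_[p]] [BorelSpace ℤ_[p]] (ν : Measure ℤ_[p])
    [ν.IsAddHaarMeasure] [IsProbabilityMeasure ν] (hθ : Continuous θ)
    {e : OpenPartialHomeomorph X (Fin (d + 1) → ℝ)} {K : ℝ≥0}
    (hK : LipschitzOnWith K e e.source) (hK' : LipschitzOnWith K e.symm e.target)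
    {L : Set (Fin (d + 1) → ℝ)} (hL : IsCompact L) (hLt : L ⊆ e.target) {W N : Set X}
    (hW : IsOpen W) (hLW : ∀ u ∈ L, e.symm u ∈ W) (hen : EnAt d ν θ N W) (k : ℕ)
    (i : Fin (d + 1)) :
    ∀ᵐ s : ℝ, ThinFam ν (fun (q : ℤ_[p]) (u : Fin (d + 1) → ℝ) =>
      θ (Multiplicative.ofAdd ((0 : ℤ_[p]) + (p : ℤ_[p]) ^ k * q)) • e.symm u) 0 (d + 2)
      {u ∈ L | e.symm u ∈ closure N ∧ u i = s} := by
  classical
  set S : Set (Fin (d + 1) → ℝ) := {u | u ∈ L ∧ e.symm u ∈ closure N} with hS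
  have hset : ∀ s : ℝ, {u ∈ L | e.symm u ∈ closure N ∧ u i = s} = {u | u ∈ S ∧ u i = s} := by
    intro s
    ext u
    simp only [mem_ofPred_eq, hS, and_assoc]
  simp only [hset]
  -- a neighbourhood of `L`
  have hO : IsOpen (e.target ∩ e.symm ⁻¹' W) := e.symm.isOpen_inter_preimage hW
  obtain ⟨η, hη, hηO⟩ := hL.exists_cthickening_subset_open hO fun u hu => ⟨hLt hu, hLW u hu⟩
  have hnear : ∀ u ∈ L, ∀ v, dist v u ≤ η → v ∈ e.target ∧ e.symm v ∈ W := fun u hu v hv =>
    hηO (mem_cthickening_of_dist_le v u η L hu hv)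
  -- the ratio of the scales
  have hK0 : (0 : ℝ) ≤ K := K.coe_nonneg
  set c : ℝ := min η (1 / (2 * ((K : ℝ) + 1))) with hc
  have hc0 : 0 < c := lt_min hη (by positivity)
  have hcη : c ≤ η := min_le_left _ _
  have hcK : (K : ℝ) * c < 1 := by
    have h1 : c ≤ 1 / (2 * ((K : ℝ) + 1)) := min_le_right _ _
    have h2 : (K : ℝ) * c ≤ K * (1 / (2 * ((K : ℝ) + 1))) := mul_le_mul_of_nonneg_left h1 hK0
    refine h2.trans_lt ?_
    rw [mul_one_div, div_lt_one (by positivity)]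
    linarith
  set A : ℝ≥0∞ := (p : ℝ≥0∞) ^ k * ((K : ℝ≥0∞) ^ (d + 1) * (ENNReal.ofReal c)⁻¹ ^ d) with hA
  have hofc : ENNReal.ofReal c ≠ 0 := (ENNReal.ofReal_pos.2 hc0).ne'
  have hAt : A ≠ ∞ := ENNReal.mul_ne_top (ENNReal.pow_ne_top (ENNReal.natCast_ne_top p))
    (ENNReal.mul_ne_top (ENNReal.pow_ne_top ENNReal.coe_ne_top) (ENNReal.pow_ne_top (ENNReal.inv_ne_top.2 hofc)))
  refine thin_of_scales (ι := Fin (d + 1) → ℤ) ν (fun u : Fin (d + 1) → ℝ => u i) _ 0 (d + 2) (Nat.succ_pos _) S A hAt fun n => ?_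
  obtain ⟨h, h0, h1, hle⟩ := hen (2⁻¹ ^ n) (pos_iff_ne_zero.2 (pow_ne_zero _ (ENNReal.inv_ne_zero.2 ENNReal.ofNat_ne_top)))
  set h' : ℝ := c * h with hh'
  have hh0 : 0 < h' := by positivity
  have hhη : h' ≤ η := by
    have := mul_le_mul_of_nonneg_left h1 hc0.le
    linarith
  have hKh : (K : ℝ) * h' < h := by
    have := mul_lt_mul_of_pos_right hcK h0
    rw [hh']
    linarith
  -- the moved diameters
  set R : (Fin (d + 1) → ℤ) → ℤ_[p] → ℝ≥0∞ := fun z a =>
    ediam ((fun x : X => θ (Multiplicative.ofAdd a) • x) '' (e.symm '' (Cube h' z ∩ S))) with hR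
  have hRm : ∀ z, Measurable (R z) := by
    intro z
    have h2 := measurable_moved (p := p) hθ (e.symm '' (Cube h' z ∩ S)) 0 0
    simpa only [pow_zero, one_mul, zero_add] using h2
  refine ⟨fun z => Cube h' z, fun z a => R z ((p : ℤ_[p]) ^ k * a), fun z => Ico (h' * z i) (h' * (z i + 1)), ?_, ?_, ?_, ?_, ?_, ?_⟩
  · intro u _
    exact mem_iUnion.2 ⟨fun j => ⌊u j / h'⌋, (mem_Cube hh0).2 fun j => rfl⟩
  · intro z
    have h2 := measurable_moved (p := p) hθ (e.symm '' (Cube h' z ∩ S)) 0 k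
    simpa only [zero_add] using h2
  · intro z
    exact measurableSet_Ico
  · intro z a
    rw [hR]
    beta_reduce
    rw [pow_zero, one_mul, zero_add, image_image]
  · intro z v hv
    exact (mem_univ_pi.1 hv) i
  · -- the weights
    have hvol : ∀ z : Fin (d + 1) → ℤ, volume (Ico (h' * (z i : ℝ)) (h' * ((z i : ℝ) + 1))) = ENNReal.ofReal h' := by
      intro z
      rw [Real.volume_Ico]
      congr 1
      ring
    simp only [hvol]
    rw [ENNReal.tsum_mul_right]
    -- the sets in `X`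
    set B : (Fin (d + 1) → ℤ) → Set X := fun z =>
      if (Cube h' z ∩ S).Nonempty then e.source ∩ e ⁻¹' (Cube h' z) else ∅ with hB
    have hBm : ∀ z, MeasurableSet (B z) := by
      intro z
      rw [hB]
      beta_reduce
      split_ifs
      · have h2 : Measurable (e.source.piecewise e (fun _ => (0 : Fin (d + 1) → ℝ))) :=
          ContinuousOn.measurable_piecewise e.continuousOn continuousOn_const e.open_source.measurableSet
        have h3 : e.source ∩ e ⁻¹' (Cube h' z) = e.source ∩ (e.source.piecewise e (fun _ => (0 : Fin (d + 1) → ℝ))) ⁻¹' (Cube h' z) := by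
          ext x
          constructor
          · rintro ⟨hx, hx'⟩
            refine ⟨hx, ?_⟩
            rw [mem_preimage, piecewise_eq_of_mem _ _ _ hx]
            exact hx'
          · rintro ⟨hx, hx'⟩
            refine ⟨hx, ?_⟩
            rw [mem_preimage, piecewise_eq_of_mem _ _ _ hx] at hx'
            exact hx'
        rw [h3]
        exact e.open_source.measurableSet.inter (h2 (measurableSet_Cube h' z))
      · exact MeasurableSet.empty
    have hBd : Pairwise (Function.onFun Disjoint B) := by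
      intro z z' hzz
      rw [Function.onFun, Set.disjoint_left]
      intro x hx hx'
      rw [hB] at hx hx'
      beta_reduce at hx hx'
      split_ifs at hx hx' with h2 h3
      · apply hzz
        funext j
        rw [← (mem_Cube hh0).1 hx.2 j, ← (mem_Cube hh0).1 hx'.2 j]
      all_goals first | exact hx.elim | exact hx'.elim
    have hgood : ∀ z, (Cube h' z ∩ S).Nonempty → ∀ v ∈ Cube h' z, v ∈ e.target ∧ e.symm v ∈ W := by
      rintro z ⟨u, hu, huS⟩ v hv
      exact hnear u huS.1 v ((dist_Cube hh0 hv hu).trans hhη)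
    have hBW : ∀ z, B z ⊆ W := by
      intro z x hx
      rw [hB] at hx
      beta_reduce at hx
      split_ifs at hx with h2
      · have h3 := (hgood z h2 (e x) hx.2).2
        rwa [e.left_inv hx.1] at h3
      · exact hx.elim
    -- the measure of `B z`
    have hBv : ∀ z, (Cube h' z ∩ S).Nonempty → ENNReal.ofReal h' ^ (d + 1) ≤
        (K : ℝ≥0∞) ^ (d + 1) * (μH[((d + 1 : ℕ) : ℝ)] : Measure X) (B z) := by
      intro z hz
      have h2 : Cube h' z ⊆ e '' (B z) := by
        intro v hv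
        obtain ⟨hvt, hvW⟩ := hgood z hz v hv
        refine ⟨e.symm v, ?_, e.right_inv hvt⟩
        rw [hB]
        beta_reduce
        rw [if_pos hz]
        refine ⟨e.map_target hvt, ?_⟩
        rw [mem_preimage, e.right_inv hvt]
        exact hv
      have h3 : B z ⊆ e.source := by
        rw [hB]
        beta_reduce
        rw [if_pos hz]
        exact inter_subset_left
      rw [← volume_Cube h' z, ← hausdorff_eq_volume]
      refine (measure_mono h2).trans ?_
      have h4 := (hK.mono h3).hausdorffMeasure_image_le (d := ((d + 1 : ℕ) : ℝ)) (Nat.cast_nonneg _)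
      rwa [ENNReal.rpow_natCast] at h4
    -- the comparison in one cube
    have hcmp : ∀ a z, R z a ^ (d + 2) * ENNReal.ofReal h' ^ (d + 1) ≤ (K : ℝ≥0∞) ^ (d + 1) *
        ∫⁻ y in B z, ediam ((fun z => θ (Multiplicative.ofAdd a) • z) '' (ball y h ∩ (W ∩ N))) ^ (d + 2)
          ∂(μH[((d + 1 : ℕ) : ℝ)] : Measure X) := by
      intro a z
      by_cases hz : (Cube h' z ∩ S).Nonempty
      · have hpt : ∀ y ∈ B z, R z a ≤ ediam ((fun z => θ (Multiplicative.ofAdd a) • z) '' (ball y h ∩ (W ∩ N))) := by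
          intro y hy
          rw [hB] at hy
          beta_reduce at hy
          rw [if_pos hz] at hy
          have hcl : ∀ v ∈ Cube h' z ∩ S, θ (Multiplicative.ofAdd a) • e.symm v ∈
              closure ((fun z => θ (Multiplicative.ofAdd a) • z) '' (ball y h ∩ (W ∩ N))) := by
            rintro v ⟨hv, hvS⟩
            have h2 : e.symm v ∈ ball y h ∩ W := by
              refine ⟨?_, hLW v hvS.1⟩
              rw [mem_ball]
              have h3 : dist (e.symm v) (e.symm (e y)) ≤ K * dist v (e y) :=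
                hK'.dist_le_mul v (hLt hvS.1) (e y) (e.map_source hy.1)
              rw [e.left_inv hy.1] at h3
              exact (h3.trans (mul_le_mul_of_nonneg_left (dist_Cube hh0 hv hy.2) hK0)).trans_lt hKh
            have h3 : e.symm v ∈ closure (ball y h ∩ (W ∩ N)) := by
              rw [← inter_assoc]
              exact (isOpen_ball.inter hW).inter_closure ⟨h2, hvS.2⟩
            exact image_closure_subset_closure_image (continuous_const_smul _) ⟨_, h3, rfl⟩
          rw [hR]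
          beta_reduce
          rw [← ediam_closure ((fun z => θ (Multiplicative.ofAdd a) • z) '' (ball y h ∩ (W ∩ N)))]
          apply Metric.ediam_le
          rintro _ ⟨_, ⟨v, hv, rfl⟩, rfl⟩ _ ⟨_, ⟨w, hw, rfl⟩, rfl⟩
          exact Metric.edist_le_ediam_of_mem (hcl v hv) (hcl w hw)
        have h2 : R z a ^ (d + 2) * (μH[((d + 1 : ℕ) : ℝ)] : Measure X) (B z) ≤
            ∫⁻ y in B z, ediam ((fun z => θ (Multiplicative.ofAdd a) • z) '' (ball y h ∩ (W ∩ N))) ^ (d + 2)
              ∂(μH[((d + 1 : ℕ) : ℝ)] : Measure X) := by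
          rw [← setLIntegral_const]
          exact setLIntegral_mono' (hBm z) fun y hy => pow_le_pow_left₀ zero_le (hpt y hy) _
        calc R z a ^ (d + 2) * ENNReal.ofReal h' ^ (d + 1)
            ≤ R z a ^ (d + 2) * ((K : ℝ≥0∞) ^ (d + 1) * (μH[((d + 1 : ℕ) : ℝ)] : Measure X) (B z)) :=
              mul_le_mul' le_rfl (hBv z hz)
          _ = (K : ℝ≥0∞) ^ (d + 1) * (R z a ^ (d + 2) * (μH[((d + 1 : ℕ) : ℝ)] : Measure X) (B z)) := by ring
          _ ≤ _ := mul_le_mul' le_rfl h2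
      · have h2 : R z a = 0 := by
          rw [hR]
          beta_reduce
          rw [not_nonempty_iff_eq_empty.1 hz, image_empty, image_empty, ediam_empty]
        rw [h2, zero_pow (Nat.succ_ne_zero _), zero_mul]
        exact zero_le
    have hone : ∀ a, (∑' z, R z a ^ (d + 2)) * ENNReal.ofReal h' ^ (d + 1) ≤ (K : ℝ≥0∞) ^ (d + 1) *
        ∫⁻ y in W, ediam ((fun z => θ (Multiplicative.ofAdd a) • z) '' (ball y h ∩ (W ∩ N))) ^ (d + 2)
          ∂(μH[((d + 1 : ℕ) : ℝ)] : Measure X) := by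
      intro a
      rw [← ENNReal.tsum_mul_right]
      refine (ENNReal.tsum_le_tsum (hcmp a)).trans ?_
      rw [ENNReal.tsum_mul_left, ← lintegral_iUnion hBm hBd]
      exact mul_le_mul' le_rfl (lintegral_mono_set (iUnion_subset hBW))
    have hint : (∑' z, ∫⁻ a, R z a ^ (d + 2) ∂ν) * ENNReal.ofReal h' ^ (d + 1) ≤
        (K : ℝ≥0∞) ^ (d + 1) * (2⁻¹ ^ n * ENNReal.ofReal (h ^ d)) := by
      rw [← lintegral_tsum fun z => ((hRm z).pow_const _).aemeasurable]
      rw [← lintegral_mul_const' _ _ (ENNReal.pow_ne_top ENNReal.ofReal_ne_top)]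
      refine (lintegral_mono hone).trans ?_
      rw [lintegral_const_mul' _ _ (ENNReal.pow_ne_top ENNReal.coe_ne_top)]
      exact mul_le_mul' le_rfl hle
    have hpk : (∑' z, ∫⁻ a, R z ((p : ℤ_[p]) ^ k * a) ^ (d + 2) ∂ν) ≤
        (p : ℝ≥0∞) ^ k * ∑' z, ∫⁻ a, R z a ^ (d + 2) ∂ν := by
      rw [← ENNReal.tsum_mul_left]
      exact ENNReal.tsum_le_tsum fun z => lintegral_pow_mul_le (ν := ν) (fun a => R z a ^ (d + 2)) k
    -- conclusion
    have hof : ENNReal.ofReal h' ≠ 0 := (ENNReal.ofReal_pos.2 hh0).ne'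
    have hoft : ENNReal.ofReal h' ^ (d + 1) ≠ ∞ := ENNReal.pow_ne_top ENNReal.ofReal_ne_top
    have hof' : ENNReal.ofReal h' ^ d ≠ 0 := pow_ne_zero _ hof
    have hoft' : ENNReal.ofReal h' ^ d ≠ ∞ := ENNReal.pow_ne_top ENNReal.ofReal_ne_top
    have hfin : (∑' z, ∫⁻ a, R z a ^ (d + 2) ∂ν) * ENNReal.ofReal h' ≤
        (K : ℝ≥0∞) ^ (d + 1) * (2⁻¹ ^ n * (ENNReal.ofReal c)⁻¹ ^ d) := by
      have e1 : ENNReal.ofReal (h ^ d) = (ENNReal.ofReal c)⁻¹ ^ d * ENNReal.ofReal h' ^ d := by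
        rw [← mul_pow, hh', ENNReal.ofReal_mul hc0.le, ← mul_assoc, ENNReal.inv_mul_cancel hofc ENNReal.ofReal_ne_top,
          one_mul, ENNReal.ofReal_pow h0.le]
      have e2 : ((∑' z, ∫⁻ a, R z a ^ (d + 2) ∂ν) * ENNReal.ofReal h') * ENNReal.ofReal h' ^ d ≤
          ((K : ℝ≥0∞) ^ (d + 1) * (2⁻¹ ^ n * (ENNReal.ofReal c)⁻¹ ^ d)) * ENNReal.ofReal h' ^ d := by
        calc ((∑' z, ∫⁻ a, R z a ^ (d + 2) ∂ν) * ENNReal.ofReal h') * ENNReal.ofReal h' ^ d
            = (∑' z, ∫⁻ a, R z a ^ (d + 2) ∂ν) * ENNReal.ofReal h' ^ (d + 1) := by rw [pow_succ]; ring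
          _ ≤ _ := hint
          _ = _ := by rw [e1]; ring
      rwa [ENNReal.mul_le_mul_iff_left hof' hoft'] at e2
    calc (∑' z, ∫⁻ a, R z ((p : ℤ_[p]) ^ k * a) ^ (d + 2) ∂ν) * ENNReal.ofReal h'
        ≤ ((p : ℝ≥0∞) ^ k * ∑' z, ∫⁻ a, R z a ^ (d + 2) ∂ν) * ENNReal.ofReal h' := mul_le_mul' hpk le_rfl
      _ = (p : ℝ≥0∞) ^ k * ((∑' z, ∫⁻ a, R z a ^ (d + 2) ∂ν) * ENNReal.ofReal h') := by ring
      _ ≤ (p : ℝ≥0∞) ^ k * ((K : ℝ≥0∞) ^ (d + 1) * (2⁻¹ ^ n * (ENNReal.ofReal c)⁻¹ ^ d)) := mul_le_mul' le_rfl hfin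
      _ = A * 2⁻¹ ^ n := by rw [hA]; ring

end Pool.Agent.HSIO
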