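import Mathlib

/-!
# Slices of sets of finite Hausdorff measure (row E of the IO project)

Almost all slices `{u ∈ C | u i = s}` of a set `C` with finite `m`-dimensional Hausdorff measure, `1 ≤ m`, have
Hausdorff measure zero in all dimensions `β > m - 1`, in the form which is used for thin sets.
-/

set_option autoImplicit false

open Set MeasureTheory Metric Filter Topology
open scoped NNReal ENNReal

namespace Pool.Agent.HSIO

/-- covers which almost realise the Hausdorff measure -/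
lemma exists_cover {Y : Type*} [MetricSpace Y] [MeasurableSpace Y] [BorelSpace Y] {C : Set Y} {m : ℝ} (hm : 0 < m)
    (hC : (μH[m] : Measure Y) C ≠ ∞) (r : ℝ≥0∞) (hr : 0 < r) :
    ∃ t : ℕ → Set Y, C ⊆ ⋃ n, t n ∧ (∀ n, ediam (t n) ≤ r) ∧ ∑' n, ediam (t n) ^ m ≤ μH[m] C + 1 := by
  have h1 : (⨅ (t : ℕ → Set Y) (_ : C ⊆ ⋃ n, t n) (_ : ∀ n, ediam (t n) ≤ r),
      ∑' n, ⨆ _ : (t n).Nonempty, ediam (t n) ^ m) ≤ μH[m] C := by
    rw [Measure.hausdorffMeasure_apply]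
    exact le_iSup₂ (f := fun (r : ℝ≥0∞) (_ : 0 < r) => ⨅ (t : ℕ → Set Y) (_ : C ⊆ ⋃ n, t n)
      (_ : ∀ n, ediam (t n) ≤ r), ∑' n, ⨆ _ : (t n).Nonempty, ediam (t n) ^ m) r hr
  have h2 : (⨅ (t : ℕ → Set Y) (_ : C ⊆ ⋃ n, t n) (_ : ∀ n, ediam (t n) ≤ r),
      ∑' n, ⨆ _ : (t n).Nonempty, ediam (t n) ^ m) < μH[m] C + 1 :=
    h1.trans_lt (ENNReal.lt_add_right hC one_ne_zero)
  simp only [iInf_lt_iff] at h2
  obtain ⟨t, ht1, ht2, ht3⟩ := h2
  refine ⟨t, ht1, ht2, le_trans (ENNReal.tsum_le_tsum fun n => ?_) ht3.le⟩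
  rcases (t n).eq_empty_or_nonempty with h | h
  · rw [h, ediam_empty, ENNReal.zero_rpow_of_pos hm]
    exact zero_le
  · exact le_iSup (fun _ : (t n).Nonempty => ediam (t n) ^ m) h

/-- Eilenberg: the slices of a set of finite `m`-dimensional measure -/
theorem eilenberg {d : ℕ} {C : Set (Fin (d + 1) → ℝ)} {m β : ℝ} (hm : 1 ≤ m) (hβ : m - 1 < β)
    (hC : (μH[m] : Measure (Fin (d + 1) → ℝ)) C ≠ ∞) (i : Fin (d + 1)) :
    ∀ᵐ s : ℝ, ∀ δ ε : ℝ≥0∞, 0 < δ → 0 < ε → ∃ E : ℕ → Set (Fin (d + 1) → ℝ),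
      {u ∈ C | u i = s} ⊆ ⋃ j, E j ∧ (∀ j, ediam (E j) ≤ δ) ∧ ∑' j, ediam (E j) ^ β ≤ ε := by
  classical
  have hβ0 : 0 < β := by linarith
  have hm0 : 0 < m := by linarith
  set γ : ℝ := β - m + 1 with hγ
  have hγ0 : 0 < γ := by linarith
  set q : ℝ≥0∞ := 2⁻¹ with hq
  have hq0 : 0 < q := by rw [hq]; exact ENNReal.inv_pos.2 ENNReal.ofNat_ne_top
  have hq1 : q < 1 := by rw [hq]; exact ENNReal.inv_lt_one.2 (by norm_num)
  have hcov : ∀ n : ℕ, ∃ t : ℕ → Set (Fin (d + 1) → ℝ), C ⊆ ⋃ j, t j ∧ (∀ j, ediam (t j) ≤ q ^ n) ∧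
      ∑' j, ediam (t j) ^ m ≤ μH[m] C + 1 := fun n =>
    exists_cover hm0 hC (q ^ n) (pos_iff_ne_zero.2 (pow_ne_zero _ hq0.ne'))
  choose t ht1 ht2 ht3 using hcov
  -- the projection of a piece
  set P : ℕ → ℕ → Set ℝ := fun n j => closure ((fun u : Fin (d + 1) → ℝ => u i) '' t n j) with hP
  have hPm : ∀ n j, MeasurableSet (P n j) := fun n j => isClosed_closure.measurableSet
  have hPv : ∀ n j, volume (P n j) ≤ ediam (t n j) := by
    intro n j
    refine (Real.volume_le_diam _).trans ?_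
    rw [hP, ediam_closure]
    have h1 : LipschitzWith 1 (fun u : Fin (d + 1) → ℝ => u i) := LipschitzWith.eval i
    have h2 := h1.ediam_image_le (t n j)
    rwa [ENNReal.coe_one, one_mul] at h2
  set T : ℕ → ℝ → ℝ≥0∞ := fun n s => ∑' j, (P n j).indicator (fun _ => ediam (t n j) ^ β) s with hT
  have hTm : ∀ n, Measurable (T n) := fun n => Measurable.tsum fun j => measurable_const.indicator (hPm n j)
  have hTi : ∀ n, ∫⁻ s, T n s ≤ (q ^ γ) ^ n * (μH[m] C + 1) := by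
    intro n
    have h1 : ∫⁻ s, T n s = ∑' j, ediam (t n j) ^ β * volume (P n j) := by
      rw [hT]
      rw [lintegral_tsum fun j => (measurable_const.indicator (hPm n j)).aemeasurable]
      refine tsum_congr fun j => ?_
      rw [lintegral_indicator (hPm n j), setLIntegral_const]
    rw [h1]
    calc ∑' j, ediam (t n j) ^ β * volume (P n j) ≤ ∑' j, (q ^ γ) ^ n * ediam (t n j) ^ m := by
          refine ENNReal.tsum_le_tsum fun j => ?_
          have h2 : ediam (t n j) ^ β * ediam (t n j) = ediam (t n j) ^ γ * ediam (t n j) ^ m := by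
            rw [← ENNReal.rpow_add_of_nonneg _ _ hγ0.le hm0.le]
            nth_rw 2 [← ENNReal.rpow_one (ediam (t n j))]
            rw [← ENNReal.rpow_add_of_nonneg _ _ hβ0.le zero_le_one]
            congr 1
            rw [hγ]; ring
          have h3 : ediam (t n j) ^ γ ≤ (q ^ γ) ^ n := by
            rw [← ENNReal.rpow_natCast, ← ENNReal.rpow_mul, mul_comm γ, ENNReal.rpow_mul, ENNReal.rpow_natCast]
            exact ENNReal.rpow_le_rpow (ht2 n j) hγ0.le
          calc ediam (t n j) ^ β * volume (P n j) ≤ ediam (t n j) ^ β * ediam (t n j) :=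
                mul_le_mul' le_rfl (hPv n j)
            _ = ediam (t n j) ^ γ * ediam (t n j) ^ m := h2
            _ ≤ _ := mul_le_mul' h3 le_rfl
      _ = (q ^ γ) ^ n * ∑' j, ediam (t n j) ^ m := ENNReal.tsum_mul_left
      _ ≤ _ := mul_le_mul' le_rfl (ht3 n)
  have hsum : ∫⁻ s, ∑' n, T n s ≠ ∞ := by
    rw [lintegral_tsum fun n => (hTm n).aemeasurable]
    refine ne_top_of_le_ne_top ?_ (ENNReal.tsum_le_tsum hTi)
    rw [ENNReal.tsum_mul_right, ENNReal.tsum_geometric]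
    refine ENNReal.mul_ne_top (ENNReal.inv_ne_top.2 ?_) (ENNReal.add_ne_top.2 ⟨hC, ENNReal.one_ne_top⟩)
    exact (tsub_pos_iff_lt.2 (ENNReal.rpow_lt_one hq1 hγ0)).ne'
  have hae : ∀ᵐ s : ℝ, ∑' n, T n s < ∞ := ae_lt_top (Measurable.tsum hTm) hsum
  filter_upwards [hae] with s hs δ ε hδ hε
  have h1 : Tendsto (fun n => T n s) atTop (𝓝 0) := ENNReal.tendsto_atTop_zero_of_tsum_ne_top hs.ne
  have h2 : Tendsto (fun n : ℕ => q ^ n) atTop (𝓝 0) := ENNReal.tendsto_pow_atTop_nhds_zero_of_lt_one hq1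
  obtain ⟨n, hn1, hn2⟩ := ((h1.eventually_le_const hε).and (h2.eventually_le_const hδ)).exists
  refine ⟨fun j => if s ∈ P n j then t n j else ∅, ?_, fun j => ?_, ?_⟩
  · rintro u ⟨huC, hus⟩
    obtain ⟨j, hj⟩ := mem_iUnion.1 (ht1 n huC)
    refine mem_iUnion.2 ⟨j, ?_⟩
    have h3 : s ∈ P n j := by
      rw [← hus]
      exact subset_closure ⟨u, hj, rfl⟩
    rw [if_pos h3]
    exact hj
  · beta_reduce
    split_ifs
    · exact (ht2 n j).trans hn2
    · rw [ediam_empty]; exact zero_le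
  · refine le_trans (le_of_eq ?_) hn1
    rw [hT]
    refine tsum_congr fun j => ?_
    beta_reduce
    by_cases h3 : s ∈ P n j
    · rw [if_pos h3, indicator_of_mem h3]
    · rw [if_neg h3, indicator_of_notMem h3, ediam_empty, ENNReal.zero_rpow_of_pos hβ0]

end Pool.Agent.HSIO
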