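import Pool.Agent.HSIO.Defs
import Pool.Agent.Helper70.IO.Eil

/-!
# Almost all slices of the Hoelder pieces are thin (row E of the IO project)
-/

set_option autoImplicit false
set_option linter.unusedSectionVars false
set_option linter.unusedVariables false

open Set MeasureTheory Metric Filter Topology
open scoped NNReal ENNReal

namespace Pool.Agent.HSIO

open Pool.Agent.Helper3.HS Pool.Agent.HS3 Pool.Agent.Helper83.IO

variable {d : ℕ} {X : Type*} [MetricSpace X] [MeasurableSpace X] [BorelSpace X] {G : Type*}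
  [Group G] [TopologicalSpace G] [MulAction G X] [ContinuousSMul G X] {p : ℕ} [hp : Fact p.Prime]
  {θ : Multiplicative ℤ_[p] →* G}

/-- the Hoelder estimate between two points of a piece -/
lemma PcH_dist {C N : Set X} {a₀ : ℤ_[p]} {l : ℕ} {b m : ℝ} (hb0 : 0 < b) {J : ℕ} {x x' : X}
    (hx : x ∈ PcH θ C N a₀ l b m J) (hx' : x' ∈ PcH θ C N a₀ l b m J) (h : dist x' x < 1 / ((J : ℝ) + 1))
    (a : ℤ_[p]) : dist (θ (Multiplicative.ofAdd (a₀ + (p : ℤ_[p]) ^ l * a)) • x')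
      (θ (Multiplicative.ofAdd (a₀ + (p : ℤ_[p]) ^ l * a)) • x) ≤ |m| * dist x' x ^ b := by
  obtain ⟨z, hzN, hz⟩ := mem_closure_iff_seq_limit.1 hx'.2.1
  have h1 : Tendsto (fun n => dist (z n) x) atTop (𝓝 (dist x' x)) := hz.dist tendsto_const_nhds
  have h2 : Tendsto (fun n => dist (θ (Multiplicative.ofAdd (a₀ + (p : ℤ_[p]) ^ l * a)) • z n)
      (θ (Multiplicative.ofAdd (a₀ + (p : ℤ_[p]) ^ l * a)) • x)) atTop
      (𝓝 (dist (θ (Multiplicative.ofAdd (a₀ + (p : ℤ_[p]) ^ l * a)) • x')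
      (θ (Multiplicative.ofAdd (a₀ + (p : ℤ_[p]) ^ l * a)) • x))) :=
    (((continuous_const_smul _).tendsto x').comp hz).dist tendsto_const_nhds
  have h3 : Tendsto (fun n => m * dist (z n) x ^ b) atTop (𝓝 (m * dist x' x ^ b)) :=
    (h1.rpow_const (Or.inr hb0.le)).const_mul m
  have h4 : ∀ᶠ n in atTop, dist (z n) x < 1 / ((J : ℝ) + 1) := h1.eventually_lt_const h
  have h5 := le_of_tendsto_of_tendsto h2 h3 (h4.mono fun n hn => hx.2.2 a (z n) (hzN n) hn)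
  exact h5.trans (mul_le_mul_of_nonneg_right (le_abs_self m) (Real.rpow_nonneg dist_nonneg b))

/-- almost all slices of the pieces are thin -/
theorem thin_PcH [MeasurableSpace ℤ_[p]] (ν : Measure ℤ_[p]) [IsProbabilityMeasure ν]
    {e : OpenPartialHomeomorph X (Fin (d + 1) → ℝ)} {K : ℝ≥0}
    (hK : LipschitzOnWith K e e.source) (hK' : LipschitzOnWith K e.symm e.target)
    {L : Set (Fin (d + 1) → ℝ)} (hL : IsCompact L)
    (hLt : L ⊆ e.target) {C : Set X} {mm : ℝ} (hm : 1 ≤ mm)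
    (hC : (μH[mm] : Measure X) C ≠ ∞)
    {N : Set X} {a₀ : ℤ_[p]} {l : ℕ} {b m : ℝ} (hb : (mm - 1) / (d + 2) < b) (hb0 : 0 < b) {J : ℕ}
    (k : ℕ) (i : Fin (d + 1)) :
    ∀ᵐ s : ℝ, ThinFam ν (fun (q : ℤ_[p]) (u : Fin (d + 1) → ℝ) =>
      θ (Multiplicative.ofAdd (a₀ + (p : ℤ_[p]) ^ k * q)) • e.symm u) l (d + 2)
      {u ∈ L | e.symm u ∈ PcH θ C N a₀ l b m J ∧ u i = s} := by
  have hd2 : (0 : ℝ) < (d : ℝ) + 2 := by positivity
  set β : ℝ := b * ((d : ℝ) + 2) with hβdef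
  have hβ : mm - 1 < β := by
    rw [div_lt_iff₀ hd2] at hb
    exact hb
  have hβ0 : 0 < β := by positivity
  have hC' : (μH[mm] : Measure (Fin (d + 1) → ℝ)) (e '' (C ∩ e.source)) ≠ ∞ := by
    refine ne_top_of_le_ne_top ?_
      ((hK.mono inter_subset_right).hausdorffMeasure_image_le (by linarith))
    exact ENNReal.mul_ne_top (ENNReal.rpow_ne_top_of_nonneg (by linarith) ENNReal.coe_ne_top)
      (ne_top_of_le_ne_top hC (measure_mono inter_subset_left))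
  filter_upwards [eilenberg hm hβ hC' i] with s hs ε hε
  -- the constants
  set A : ℝ≥0∞ := (ENNReal.ofReal |m|) ^ (d + 2) * (K : ℝ≥0∞) ^ β with hA
  have hAt : A ≠ ∞ := ENNReal.mul_ne_top (ENNReal.pow_ne_top ENNReal.ofReal_ne_top)
    (ENNReal.rpow_ne_top_of_nonneg hβ0.le ENNReal.coe_ne_top)
  have hA1t : A + 1 ≠ ∞ := ENNReal.add_ne_top.mpr ⟨hAt, ENNReal.one_ne_top⟩
  set D : ℝ := 1 / (2 * ((J : ℝ) + 1) * ((K : ℝ) + 1)) with hD
  have hK0 : (0 : ℝ) ≤ K := K.coe_nonneg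
  have hD0 : 0 < D := by positivity
  obtain ⟨E, hE1, hE2, hE3⟩ := hs (ENNReal.ofReal D) (ε / (A + 1)) (ENNReal.ofReal_pos.2 hD0)
    (ENNReal.div_pos hε.ne' hA1t)
  refine ⟨E, fun j _ => ENNReal.ofReal |m| * ((K : ℝ≥0∞) * ediam (E j)) ^ b, ?_, fun j => measurable_const, ?_, ?_⟩
  · rintro u ⟨huL, huP, hus⟩
    refine hE1 ⟨⟨e.symm u, ⟨huP.1, e.map_target (hLt huL)⟩, e.right_inv (hLt huL)⟩, hus⟩
  · intro j a
    apply Metric.ediam_le
    rintro _ ⟨u, ⟨huE, huL, huP, hus⟩, rfl⟩ _ ⟨v, ⟨hvE, hvL, hvP, hvs⟩, rfl⟩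
    have h1 : edist (e.symm u) (e.symm v) ≤ K * edist u v := hK' (hLt huL) (hLt hvL)
    have h2 : edist u v ≤ ediam (E j) := Metric.edist_le_ediam_of_mem huE hvE
    have h3 : edist (e.symm u) (e.symm v) ≤ K * ediam (E j) := h1.trans (mul_le_mul' le_rfl h2)
    have h4 : dist (e.symm u) (e.symm v) < 1 / ((J : ℝ) + 1) := by
      have h5 : edist (e.symm u) (e.symm v) ≤ ENNReal.ofReal (K * D) := by
        rw [ENNReal.ofReal_mul hK0, ENNReal.ofReal_coe_nnreal]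
        exact h3.trans (mul_le_mul' le_rfl (hE2 j))
      rw [edist_dist, ENNReal.ofReal_le_ofReal_iff (by positivity)] at h5
      refine h5.trans_lt ?_
      rw [hD, mul_one_div, div_lt_div_iff₀ (by positivity) (by positivity)]
      have hJ : (0 : ℝ) < (J : ℝ) + 1 := by positivity
      nlinarith
    have h6 : a₀ + (p : ℤ_[p]) ^ k * ((p : ℤ_[p]) ^ l * a) = a₀ + (p : ℤ_[p]) ^ l * ((p : ℤ_[p]) ^ k * a) := by ring
    beta_reduce
    rw [h6, edist_dist]
    have h7 := PcH_dist hb0 hvP huP h4 ((p : ℤ_[p]) ^ k * a)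
    refine (ENNReal.ofReal_le_ofReal h7).trans ?_
    rw [ENNReal.ofReal_mul (abs_nonneg m)]
    refine mul_le_mul' le_rfl ?_
    rw [← ENNReal.ofReal_rpow_of_nonneg dist_nonneg hb0.le, ← edist_dist]
    exact ENNReal.rpow_le_rpow h3 hb0.le
  · have h1 : ∀ j, ∫⁻ _ : ℤ_[p], (ENNReal.ofReal |m| * ((K : ℝ≥0∞) * ediam (E j)) ^ b) ^ (d + 2) ∂ν =
        A * ediam (E j) ^ β := by
      intro j
      rw [lintegral_const, measure_univ, mul_one, mul_pow, hA, mul_assoc]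
      congr 1
      rw [← ENNReal.rpow_natCast, ← ENNReal.rpow_mul, hβdef, ← ENNReal.mul_rpow_of_nonneg _ _ (by positivity)]
      push_cast
      rfl
    rw [tsum_congr h1, ENNReal.tsum_mul_left]
    calc A * ∑' j, ediam (E j) ^ β ≤ (A + 1) * (ε / (A + 1)) := mul_le_mul' le_self_add hE3
      _ = ε := ENNReal.mul_div_cancel (by simp) hA1t

end Pool.Agent.HSIO
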